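import Pool.Agent.Helper21.DN.Stmts

set_option autoImplicit false

namespace Pool.Agent.Helper21.DN

universe u

open Polynomial

theorem p3_smul_top (n : ℕ) (hn : 0 < n) : n • (⊤ : WithTop ℤ) = ⊤ := by
  obtain ⟨m, rfl⟩ : ∃ m, n = m + 1 := ⟨n - 1, by omega⟩
  rw [succ_nsmul, WithTop.add_top]

theorem p3_cancel (n : ℕ) (hn : 0 < n) (a b : WithTop ℤ) (h : n • a = n • b) : a = b := by
  have hn' : (n : ℤ) ≠ 0 := by omega
  induction a using WithTop.recTopCoe with
  | top =>
    induction b using WithTop.recTopCoe with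
    | top => rfl
    | coe b =>
      exfalso
      rw [p3_smul_top n hn, ← WithTop.coe_nsmul] at h
      exact WithTop.top_ne_coe h
  | coe a =>
    induction b using WithTop.recTopCoe with
    | top =>
      exfalso
      rw [p3_smul_top n hn, ← WithTop.coe_nsmul] at h
      exact WithTop.coe_ne_top h
    | coe b =>
      rw [← WithTop.coe_nsmul, ← WithTop.coe_nsmul, WithTop.coe_inj] at h
      rw [nsmul_eq_mul, nsmul_eq_mul] at h
      rw [mul_left_cancel₀ hn' h]

theorem p3_one_le (n : ℕ) (hn : 0 < n) (a : WithTop ℤ) (h : 1 ≤ n • a) : 1 ≤ a := by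
  induction a using WithTop.recTopCoe with
  | top => exact le_top
  | coe a =>
    have h1 : ((1 : ℤ) : WithTop ℤ) ≤ ((n • a : ℤ) : WithTop ℤ) := by
      rw [WithTop.coe_nsmul]
      exact h
    rw [WithTop.coe_le_coe, nsmul_eq_mul] at h1
    have h2 : (1 : ℤ) ≤ a := by
      by_contra hc
      have h3 : a ≤ 0 := by omega
      have h4 : (n : ℤ) * a ≤ 0 := mul_nonpos_of_nonneg_of_nonpos (by positivity) h3
      omega
    exact WithTop.coe_le_coe.2 h2

theorem p3_smul_mono (n : ℕ) (a b : WithTop ℤ) (h : a ≤ b) : n • a ≤ n • b := by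
  induction n with
  | zero => simp
  | succ n ih =>
    rw [succ_nsmul, succ_nsmul]
    exact add_le_add ih h

theorem p3_prod {L : Type u} [Field L] (v : AddValuation L (WithTop ℤ)) {ι : Type u}
    (f : ι → L) (m : ι → ℕ) (T : Finset ι) (h : ∀ i ∈ T, v (f i) = (((m i : ℕ) : ℤ) : WithTop ℤ)) :
    v (∏ i ∈ T, f i) = (((∑ i ∈ T, m i : ℕ) : ℤ) : WithTop ℤ) := by
  classical
  induction T using Finset.induction_on with
  | empty =>
    rw [Finset.prod_empty, Finset.sum_empty, v.map_one]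
    rfl
  | insert a T ha ih =>
    rw [Finset.prod_insert ha, Finset.sum_insert ha, v.map_mul, h a (Finset.mem_insert_self _ _),
      ih (fun i hi => h i (Finset.mem_insert_of_mem hi)), ← WithTop.coe_add, Nat.cast_add]

theorem p3_coeff {L : Type u} [Field L] (v : AddValuation L (WithTop ℤ)) {ι : Type u}
    (b : ι → L) (T : Finset ι) (h : ∀ i ∈ T, 1 ≤ v (b i)) :
    ∀ j, j < T.card → 1 ≤ v ((∏ i ∈ T, (X - C (b i))).coeff j) := by
  classical
  induction T using Finset.induction_on with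
  | empty =>
    intro j hj
    simp at hj
  | insert a T ha ih =>
    have ih' := ih (fun i hi => h i (Finset.mem_insert_of_mem hi))
    have hmon : (∏ i ∈ T, (X - C (b i))).Monic := monic_prod_X_sub_C b T
    have hdeg : (∏ i ∈ T, (X - C (b i))).natDegree = T.card :=
      natDegree_finsetProd_X_sub_C_eq_card T b
    have h0 : ∀ j, 0 ≤ v ((∏ i ∈ T, (X - C (b i))).coeff j) := by
      intro j
      rcases lt_trichotomy j T.card with hj | hj | hj
      · exact le_trans zero_le_one (ih' j hj)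
      · have h1 : (∏ i ∈ T, (X - C (b i))).coeff j = 1 := by
          rw [hj, ← hdeg]
          exact hmon
        rw [h1, v.map_one]
      · rw [coeff_eq_zero_of_natDegree_lt (by omega), v.map_zero]
        exact le_top
    intro j hj
    rw [Finset.card_insert_of_notMem ha] at hj
    rw [Finset.prod_insert ha, sub_mul, coeff_sub, coeff_C_mul]
    have h2 : 1 ≤ v (b a * (∏ i ∈ T, (X - C (b i))).coeff j) := by
      rw [v.map_mul]
      calc (1 : WithTop ℤ) = 1 + 0 := (add_zero 1).symm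
        _ ≤ _ := add_le_add (h a (Finset.mem_insert_self _ _)) (h0 j)
    have h3 : 1 ≤ v ((X * ∏ i ∈ T, (X - C (b i))).coeff j) := by
      cases j with
      | zero =>
        rw [coeff_X_mul_zero, v.map_zero]
        exact le_top
      | succ j =>
        rw [coeff_X_mul]
        exact ih' j (by omega)
    exact le_trans (le_min h3 h2) (v.map_sub _ _)

theorem p3_iter {K L : Type u} [Field K] [Field L] [Algebra K L] (σ : L ≃ₐ[K] L) (n : ℕ) (x : L) :
    (⇑σ)^[n] x = (σ ^ n) x := by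
  induction n generalizing x with
  | zero => rfl
  | succ n ih =>
    rw [Function.iterate_succ_apply, ih, pow_succ]
    rfl

theorem p3_pow {p : ℕ} {K L : Type u} [Field K] [Field L] [Algebra K L]
    (hp : IsPGroup p (L ≃ₐ[K] L)) (σ : L ≃ₐ[K] L) : ∃ N : ℕ, ∀ x, (⇑σ)^[p ^ N] x = x := by
  obtain ⟨N, hN⟩ := hp σ
  refine ⟨N, fun x => ?_⟩
  rw [p3_iter, hN]
  rfl

theorem p3_S1 (hS1 : ST_S1.{u}) (p : ℕ) [Fact p.Prime] (k K L : Type u) [Field k] [CharP k p]
    [Field K] [Field L] [Algebra K L] (κ : k →+* K) (v : AddValuation L (WithTop ℤ))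
    (htv : TV ((algebraMap K L).comp κ) v) (σ : L ≃ₐ[K] L) (hinv : ∀ x, v (σ x) = v x)
    (hN : ∃ N : ℕ, ∀ x, (⇑σ)^[p ^ N] x = x) (hne : ∃ x, σ x ≠ x) :
    1 ≤ s v σ ∧ (∀ x, v x + ((s v σ : ℤ) : WithTop ℤ) ≤ v (σ x - x)) ∧
    (∀ (x : L) (m : ℤ), v x = (m : WithTop ℤ) → ¬ (p : ℤ) ∣ m →
      v (σ x - x) = ((m + s v σ : ℤ) : WithTop ℤ)) := by
  refine hS1 p k L ((algebraMap K L).comp κ) v htv ((σ : L →ₐ[K] L) : L →+* L) ?_ hinv hN hne
  intro c
  exact σ.commutes (κ c)

theorem st_P3 (hS1 : ST_S1.{u}) : ST_P3.{u} := by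
  classical
  intro p _ k K L _ _ _ _ _ _ _ κ v hR hp E _ vE hTE hvE σ hσ
  have hppr : p.Prime := Fact.out
  obtain ⟨π, hπ⟩ := hR.tv.unif
  have he : 0 < Module.finrank E L := Module.finrank_pos
  set e := Module.finrank E L with hedef
  set H' : Finset (L ≃ₐ[K] L) := Finset.univ.filter (fun j => j ∈ E.fixingSubgroup) with hH'
  have hmemH : ∀ j, j ∈ H' ↔ j ∈ E.fixingSubgroup := by
    intro j
    simp [hH']
  have hcard : H'.card = e := by
    rw [hedef, ← IsGalois.card_fixingSubgroup_eq_finrank E]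
    rw [Nat.card_eq_fintype_card, ← Fintype.card_coe]
    exact Fintype.card_congr (Equiv.subtypeEquivRight hmemH)
  have hcs : cs (fun σ : L ≃ₐ[K] L => s v σ) E.fixingSubgroup σ = ∑ j ∈ H', s v ⇑(σ * j) := by
    unfold cs
    refine Finset.sum_congr ?_ (fun _ _ => rfl)
    ext j
    simp [hH']
  -- the polynomial
  set f : L[X] := ∏ h ∈ H', (X - C (h π)) with hf
  have hmon : f.Monic := monic_prod_X_sub_C (fun h : L ≃ₐ[K] L => h π) H'
  have hdeg : f.natDegree = e := by
    rw [← hcard]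
    exact natDegree_finsetProd_X_sub_C_eq_card H' (fun h : L ≃ₐ[K] L => h π)
  have hfix : ∀ τ ∈ E.fixingSubgroup, f.map ((τ : L →ₐ[K] L) : L →+* L) = f := by
    intro τ hτ
    rw [hf, Polynomial.map_prod]
    refine Finset.prod_equiv (Equiv.mulLeft τ) ?_ ?_
    · intro i
      rw [hmemH, hmemH]
      simp only [Equiv.coe_mulLeft]
      exact (Subgroup.mul_mem_cancel_left _ hτ).symm
    · intro i _
      simp only [Polynomial.map_sub, Polynomial.map_X, Polynomial.map_C, Equiv.coe_mulLeft]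
      rfl
  have hE : ∀ i, f.coeff i ∈ E := by
    intro i
    have h1 : f.coeff i ∈ IntermediateField.fixedField E.fixingSubgroup := by
      rw [IntermediateField.mem_fixedField_iff]
      intro τ hτ
      have h2 := congrArg (fun q : L[X] => q.coeff i) (hfix τ hτ)
      simp only [Polynomial.coeff_map] at h2
      exact h2
    rwa [IsGalois.fixedField_fixingSubgroup] at h1
  set σE := σ.restrictNormal E with hσE
  have hcom : ∀ x : E, ((σE x : E) : L) = σ (x : L) := fun x =>
    AlgEquiv.restrictNormal_commutes σ E x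
  have hinvE : ∀ x : E, vE (σE x) = vE x := by
    intro x
    apply p3_cancel e he
    rw [← hvE, ← hvE, hcom]
    exact hR.inv σ x
  have hpowE : ∃ N : ℕ, ∀ x, (⇑σE)^[p ^ N] x = x := by
    obtain ⟨N, hN⟩ := p3_pow hp σ
    refine ⟨N, fun x => ?_⟩
    have h1 : ∀ (n : ℕ) (x : E), (((⇑σE)^[n] x : E) : L) = (⇑σ)^[n] (x : L) := by
      intro n
      induction n with
      | zero => intro x; rfl
      | succ n ih =>
        intro x
        rw [Function.iterate_succ_apply, Function.iterate_succ_apply, ih, hcom]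
    apply Subtype.ext
    rw [h1, hN]
  have hneE : ∃ x, σE x ≠ x := by
    by_contra hc
    push Not at hc
    apply hσ
    rw [IntermediateField.mem_fixingSubgroup_iff]
    intro x hx
    have h1 := hcom ⟨x, hx⟩
    rw [hc ⟨x, hx⟩] at h1
    exact h1.symm
  obtain ⟨_, hEle, hEeq⟩ := p3_S1 hS1 p k K E κ vE hTE σE hinvE hpowE hneE
  set sE := s vE σE with hsE
  -- elements of the coset
  have hcos : ∀ h ∈ H', v (π - σ (h π)) = (((1 + s v ⇑(σ * h) : ℕ) : ℤ) : WithTop ℤ) := by
    intro h hh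
    have hne : ∃ x, (σ * h) x ≠ x := by
      by_contra hc
      push Not at hc
      apply hσ
      have h1 : σ * h = 1 := AlgEquiv.ext hc
      have h2 : σ = h⁻¹ := eq_inv_of_mul_eq_one_left h1
      rw [h2]
      exact Subgroup.inv_mem _ ((hmemH h).1 hh)
    obtain ⟨_, _, h3⟩ := p3_S1 hS1 p k K L κ v hR.tv (σ * h) (hR.inv _) (p3_pow hp _) hne
    have h4 := h3 π 1 hπ (by
      intro hd
      have h5 := Int.eq_one_of_dvd_one (by positivity) hd
      have h6 : p = 1 := by exact_mod_cast h5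
      exact hppr.one_lt.ne' h6)
    rw [v.map_sub_swap]
    have h7 : σ (h π) = (σ * h) π := rfl
    rw [h7, h4]
    congr 1
  have hv1 : v ((f.map ((σ : L →ₐ[K] L) : L →+* L)).eval π) =
      (((e + ∑ j ∈ H', s v ⇑(σ * j) : ℕ) : ℤ) : WithTop ℤ) := by
    rw [hf, Polynomial.map_prod, Polynomial.eval_prod]
    have h1 : ∏ j ∈ H', Polynomial.eval π ((X - C (j π)).map ((σ : L →ₐ[K] L) : L →+* L)) =
        ∏ j ∈ H', (π - σ (j π)) := by
      refine Finset.prod_congr rfl ?_
      intro j _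
      simp only [Polynomial.map_sub, Polynomial.map_X, Polynomial.map_C, Polynomial.eval_sub,
        Polynomial.eval_X, Polynomial.eval_C]
      rfl
    rw [h1, p3_prod v (fun j : L ≃ₐ[K] L => π - σ (j π)) (fun j => 1 + s v ⇑(σ * j)) H' hcos,
      Finset.sum_add_distrib, Finset.sum_const, hcard, smul_eq_mul, mul_one]
  -- the second computation
  have hf0 : f.eval π = 0 := by
    rw [hf, Polynomial.eval_prod]
    refine Finset.prod_eq_zero ((hmemH 1).2 (Subgroup.one_mem _)) ?_
    simp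
  obtain ⟨e', he'⟩ : ∃ e', e = e' + 1 := ⟨e - 1, by omega⟩
  have hlast : f.coeff e = 1 := by
    rw [← hdeg]
    exact hmon
  have hsum : (f.map ((σ : L →ₐ[K] L) : L →+* L)).eval π =
      (∑ i ∈ Finset.range e', (σ (f.coeff (i + 1)) - f.coeff (i + 1)) * π ^ (i + 1)) +
        (σ (f.coeff 0) - f.coeff 0) := by
    have h1 : (f.map ((σ : L →ₐ[K] L) : L →+* L)).eval π =
        ∑ i ∈ Finset.range (e + 1), σ (f.coeff i) * π ^ i := by
      rw [Polynomial.eval_eq_sum_range' (n := e + 1)]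
      · refine Finset.sum_congr rfl ?_
        intro i _
        rw [Polynomial.coeff_map]
        rfl
      · rw [hmon.natDegree_map, hdeg]
        omega
    have h2 : f.eval π = ∑ i ∈ Finset.range (e + 1), f.coeff i * π ^ i := by
      rw [Polynomial.eval_eq_sum_range' (n := e + 1)]
      rw [hdeg]
      omega
    have h3 : (f.map ((σ : L →ₐ[K] L) : L →+* L)).eval π =
        ∑ i ∈ Finset.range (e + 1), (σ (f.coeff i) - f.coeff i) * π ^ i := by
      rw [← sub_zero (Polynomial.eval π (f.map ((σ : L →ₐ[K] L) : L →+* L))), ← hf0, h1, h2,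
        ← Finset.sum_sub_distrib]
      refine Finset.sum_congr rfl ?_
      intro i _
      ring
    rw [h3, Finset.sum_range_succ, hlast, map_one, sub_self, zero_mul, add_zero, he',
      Finset.sum_range_succ', pow_zero, mul_one]
  have hva : ∀ i, v (σ (f.coeff i) - f.coeff i) = e • vE (σE ⟨f.coeff i, hE i⟩ - ⟨f.coeff i, hE i⟩) := by
    intro i
    rw [← hvE]
    congr 1
    rw [← hcom ⟨f.coeff i, hE i⟩]
    rfl
  have hvE0 : vE ⟨f.coeff 0, hE 0⟩ = ((1 : ℤ) : WithTop ℤ) := by
    apply p3_cancel e he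
    rw [← hvE]
    have h1 : f.coeff 0 = ∏ j ∈ H', (- (j π)) := by
      rw [Polynomial.coeff_zero_eq_eval_zero, hf, Polynomial.eval_prod]
      refine Finset.prod_congr rfl ?_
      intro j _
      simp
    have h2 : ∀ j ∈ H', v (-(j π)) = (((1 : ℕ) : ℤ) : WithTop ℤ) := by
      intro j _
      rw [v.map_neg, hR.inv, hπ]
      rfl
    show v (f.coeff 0) = _
    rw [h1, p3_prod v (fun j : L ≃ₐ[K] L => -(j π)) (fun _ => 1) H' h2, Finset.sum_const, hcard,
      ← WithTop.coe_nsmul]
    simp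
  have h0 : v (σ (f.coeff 0) - f.coeff 0) = ((((e * (1 + sE) : ℕ) : ℤ)) : WithTop ℤ) := by
    rw [hva, hEeq _ 1 hvE0 (by
      intro hd
      have h5 := Int.eq_one_of_dvd_one (by positivity) hd
      have h6 : p = 1 := by exact_mod_cast h5
      exact hppr.one_lt.ne' h6), ← WithTop.coe_nsmul]
    congr 1
  have hrest : v (σ (f.coeff 0) - f.coeff 0) <
      v (∑ i ∈ Finset.range e', (σ (f.coeff (i + 1)) - f.coeff (i + 1)) * π ^ (i + 1)) := by
    rw [h0]
    refine v.map_lt_sum WithTop.coe_ne_top ?_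
    intro i hi
    rw [Finset.mem_range] at hi
    rw [v.map_mul, v.map_pow, hπ]
    have h1 : 1 ≤ vE ⟨f.coeff (i + 1), hE (i + 1)⟩ := by
      apply p3_one_le e he
      rw [← hvE]
      refine p3_coeff v (fun h : L ≃ₐ[K] L => h π) H' ?_ (i + 1) (by omega)
      intro j _
      rw [hR.inv, hπ]
    have h2 : ((((e * (1 + sE) : ℕ) : ℤ)) : WithTop ℤ) ≤ v (σ (f.coeff (i + 1)) - f.coeff (i + 1)) := by
      rw [hva]
      have h3 : ((((e * (1 + sE) : ℕ) : ℤ)) : WithTop ℤ) = e • (((1 + sE : ℤ)) : WithTop ℤ) := by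
        rw [← WithTop.coe_nsmul]
        congr 1
      rw [h3]
      apply p3_smul_mono
      refine le_trans ?_ (hEle _)
      rw [WithTop.coe_add]
      exact add_le_add h1 le_rfl
    have h4 : ((((e * (1 + sE) : ℕ) : ℤ)) : WithTop ℤ) < ((((e * (1 + sE) : ℕ) : ℤ)) : WithTop ℤ) + (i + 1) • (1 : WithTop ℤ) := by
      have h5 : (i + 1) • (1 : WithTop ℤ) = (((i + 1 : ℕ) : ℤ) : WithTop ℤ) := by
        have h6 : (1 : WithTop ℤ) = ((1 : ℤ) : WithTop ℤ) := rfl
        rw [h6, ← WithTop.coe_nsmul]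
        simp
      rw [h5, ← WithTop.coe_add, WithTop.coe_lt_coe]
      push_cast
      omega
    exact lt_of_lt_of_le h4 (add_le_add h2 le_rfl)
  have hfin := hv1
  rw [hsum, v.map_add_eq_of_lt_right hrest, h0, WithTop.coe_inj] at hfin
  rw [hcs]
  have h7 : e * (1 + sE) = e + ∑ j ∈ H', s v ⇑(σ * j) := by exact_mod_cast hfin
  rw [mul_add, mul_one] at h7
  omega

end Pool.Agent.Helper21.DN
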