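import Pool.Agent.Helper21.DN.Stmts

set_option autoImplicit false

namespace Pool.Agent.Helper21.DN

universe u

theorem ub_exists {p : ℕ} [Fact p.Prime] {P : Type} [Group P] [Finite P] (hP : IsPGroup p P)
    (hnt : Nontrivial P) : ∃ z : P, z ∈ Subgroup.center P ∧ orderOf z = p := by
  have := hP.center_nontrivial
  have h1 := (hP.to_subgroup (Subgroup.center P)).card_eq_or_dvd
  have h2 : p ∣ Nat.card (Subgroup.center P) := by
    rcases h1 with h1 | h1
    · exfalso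
      have := Finite.one_lt_card_iff_nontrivial.2 (inferInstance : Nontrivial (Subgroup.center P))
      omega
    · exact h1
  obtain ⟨z, hz⟩ := exists_prime_orderOf_dvd_card' p h2
  exact ⟨z, z.2, by rw [Subgroup.orderOf_coe, hz]⟩

theorem ub_min {p : ℕ} [Fact p.Prime] {P : Type} [Group P] [Finite P] (hP : IsPGroup p P)
    (z : P) (hz : orderOf z = p) : (∃ H : Subgroup P, z ∉ ⁅H, H⁆ ∧ minIndex z = H.index) ∧
      ∃ a : ℕ, minIndex z = p ^ a := by
  have hppr : p.Prime := Fact.out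
  have h1 : minIndex z ∈ {m : ℕ | ∃ H : Subgroup P, z ∉ ⁅H, H⁆ ∧ m = H.index} := by
    apply Nat.sInf_mem
    refine ⟨(⊥ : Subgroup P).index, ⊥, ?_, rfl⟩
    rw [Subgroup.commutator_bot_right]
    intro h
    rw [Subgroup.mem_bot] at h
    rw [h, orderOf_one] at hz
    exact hppr.one_lt.ne hz
  obtain ⟨H, hH, hm⟩ := h1
  refine ⟨⟨H, hH, hm⟩, ?_⟩
  obtain ⟨a, ha⟩ := hP.index H
  exact ⟨a, by rw [hm, ha]⟩

theorem ub_MP {p : ℕ} [Fact p.Prime] {P : Type} [Group P] [Finite P] (hP : IsPGroup p P)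
    (hnt : Nontrivial P) : 0 < MP p P ∧
    ∀ z : P, z ∈ Subgroup.center P → orderOf z = p → minIndex z ∣ MP p P := by
  have hppr : p.Prime := Fact.out
  set S : Set ℕ := {m | ∃ z : P, z ∈ Subgroup.center P ∧ orderOf z = p ∧ m = minIndex z} with hS
  have hfin : S.Finite := by
    have h1 : S ⊆ Set.range (fun z : P => minIndex z) := by
      rintro m ⟨z, _, _, rfl⟩
      exact ⟨z, rfl⟩
    exact (Set.finite_range _).subset h1
  have hne : S.Nonempty := by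
    obtain ⟨z, hz1, hz2⟩ := ub_exists hP hnt
    exact ⟨_, z, hz1, hz2, rfl⟩
  have hmem : MP p P ∈ S := Nat.sSup_mem hne hfin.bddAbove
  obtain ⟨z1, hz1, hz2, hz3⟩ := hmem
  obtain ⟨_, a, ha⟩ := ub_min hP z1 hz2
  refine ⟨by rw [hz3, ha]; exact pow_pos hppr.pos a, ?_⟩
  intro z hz hzo
  obtain ⟨_, b, hb⟩ := ub_min hP z hzo
  have hle : minIndex z ≤ MP p P := le_csSup hfin.bddAbove ⟨z, hz, hzo, rfl⟩
  rw [hz3, ha, hb] at *
  exact pow_dvd_pow p ((Nat.pow_le_pow_iff_right hppr.one_lt).1 hle)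

theorem st_UB (hRAM : ST_RAM.{u}) (hGRF : ST_GRF.{u}) (hUBG : ST_UBG.{u}) (hCOND : ST_COND.{u}) :
    ST_UB.{u} := by
  intro p _ k _ _ _ P _ _ hP hnt
  obtain ⟨hpos, hdiv⟩ := ub_MP hP hnt
  refine ⟨hpos, ?_⟩
  rintro c ⟨L, _, _, hfd, hgal, ⟨e⟩, rfl⟩
  have hpG : IsPGroup p (L ≃ₐ[LaurentSeries k] L) := hP.of_equiv e.symm
  have hntG : Nontrivial (L ≃ₐ[LaurentSeries k] L) := e.toEquiv.nontrivial
  obtain ⟨v, hv, hR⟩ := hRAM k L
  have hg := hGRF p k (LaurentSeries k) L (κ0 k) v hR hpG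
  have hc := hCOND p k L v hv hR hpG hntG
  obtain ⟨z0, hz1, hz2, hz3⟩ := hUBG p (L ≃ₐ[LaurentSeries k] L) _ hpG hntG hg
  set A : ℕ := S1 (fun σ : L ≃ₐ[LaurentSeries k] L => s v σ) +
    x0 (fun σ : L ≃ₐ[LaurentSeries k] L => s v σ) with hA
  have hz0 : e z0 ∈ Subgroup.center P := by
    rw [Subgroup.mem_center_iff] at hz1 ⊢
    intro g
    obtain ⟨g0, rfl⟩ := e.surjective g
    rw [← map_mul, ← map_mul, hz1 g0]
  have hzo : orderOf (e z0) = p := by
    rw [MulEquiv.orderOf_eq, hz2]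
  have hcard : Nat.card P = Fintype.card (L ≃ₐ[LaurentSeries k] L) := by
    rw [← Nat.card_eq_fintype_card]
    exact (Nat.card_congr e.toEquiv).symm
  have hmain : ∀ H : Subgroup P, e z0 ∉ ⁅H, H⁆ →
      ∃ a : ℤ, (H.index : ℝ) * conductor k L = (a : ℝ) := by
    intro H hH
    have h1 : z0 ∉ ⁅H.comap e.toMonoidHom, H.comap e.toMonoidHom⁆ := by
      intro h
      apply hH
      have h2 : e z0 ∈ Subgroup.map e.toMonoidHom
          ⁅H.comap e.toMonoidHom, H.comap e.toMonoidHom⁆ := ⟨z0, h, rfl⟩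
      rw [Subgroup.map_commutator, Subgroup.map_comap_eq_self_of_surjective e.surjective] at h2
      exact h2
    have h2 : Nat.card (H.comap e.toMonoidHom) ∣ A := hz3 _ h1
    have h3 : Nat.card (H.comap e.toMonoidHom) = Nat.card H := by
      refine Nat.card_congr ?_
      exact (e.toEquiv.subtypeEquiv (fun a => Iff.rfl))
    rw [h3] at h2
    obtain ⟨b, hb⟩ := h2
    refine ⟨b, ?_⟩
    have h4 : (A : ℝ) = (Nat.card H : ℝ) * (b : ℝ) := by exact_mod_cast hb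
    have h5 : (Nat.card H : ℝ) * (H.index : ℝ) = (Fintype.card (L ≃ₐ[LaurentSeries k] L) : ℝ) := by
      rw [← hcard]
      exact_mod_cast H.card_mul_index
    have hpc : (0 : ℝ) < (Nat.card H : ℝ) := by exact_mod_cast Nat.card_pos
    have hpi : (0 : ℝ) < (H.index : ℝ) := by
      exact_mod_cast Nat.pos_of_ne_zero Subgroup.FiniteIndex.index_ne_zero
    rw [hc]
    unfold cond
    rw [← h5]
    have h6 : ((S1 (fun σ : L ≃ₐ[LaurentSeries k] L => s v σ) : ℝ) +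
        (x0 (fun σ : L ≃ₐ[LaurentSeries k] L => s v σ) : ℝ)) = (Nat.card H : ℝ) * (b : ℝ) := by
      rw [← h4, hA]
      push_cast
      ring
    rw [h6]
    push_cast
    field_simp
  refine ⟨e z0, hz0, hzo, hmain, ?_⟩
  obtain ⟨⟨H, hH, hm⟩, _⟩ := ub_min hP (e z0) hzo
  obtain ⟨a, ha⟩ := hmain H hH
  obtain ⟨b, hb⟩ := hdiv (e z0) hz0 hzo
  refine ⟨b * a, ?_⟩
  rw [hb, hm]
  push_cast
  rw [← ha]
  ring

end Pool.Agent.Helper21.DN
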